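import Pool.Agent.W345.GK.Cl2

set_option autoImplicit false

open Polynomial Finset
open scoped TensorProduct nonZeroDivisors

namespace Pool.Agent.W140.GK

open Pool.Agent.W345.GK

theorem car_one' (k : Type) [Field k] [Fintype k] : car (1 : k[X]) = X := by
  simp [car, carP]

theorem cyc : S_C1 → S_CYA → S_CYB → S_CYC := by
  intro _ hA hB k _ _ P Fc _ _ _ _ hsf hPm hPi
  classical
  obtain ⟨Ψ, hcar, hΨm, hΨd, hΨ0, hΨc, hΨi, hΨiK, _, _, hsep, hsepΨ⟩ := hB k P hPm hPi
  have hfd : FiniteDimensional (RatFunc k) Fc :=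
    IsSplittingField.finiteDimensional Fc ((car P).map (algebraMap k[X] (RatFunc k)))
  have hgal : IsGalois (RatFunc k) Fc := IsGalois.of_separable_splitting_field hsep
  have hsepF : Algebra.IsSeparable (RatFunc k) Fc := inferInstance
  have hinj : Function.Injective (algebraMap k[X] Fc) := by
    rw [IsScalarTower.algebraMap_eq k[X] (RatFunc k) Fc]
    exact (algebraMap (RatFunc k) Fc).injective.comp (IsFractionRing.injective k[X] (RatFunc k))
  have haev : ∀ (f : (k[X])[X]) (z : Fc),
      aeval z (f.map (algebraMap k[X] (RatFunc k))) = aeval z f := by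
    intro f z
    rw [aeval_map_algebraMap]
  have hP0 : P ≠ 0 := hPi.ne_zero
  have hPF : algebraMap k[X] Fc P ≠ 0 := by
    rw [Ne, map_eq_zero_iff _ hinj]; exact hP0
  -- a root
  have hspl := IsSplittingField.splits Fc ((car P).map (algebraMap k[X] (RatFunc k)))
  have hcarK0 : (car P).map (algebraMap k[X] (RatFunc k)) ≠ 0 := hsep.ne_zero
  have hdvd : (Ψ.map (algebraMap k[X] (RatFunc k))) ∣
      (car P).map (algebraMap k[X] (RatFunc k)) := by
    rw [hcar, Polynomial.map_mul]
    exact Dvd.intro_left _ rfl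
  have hsplΨ : ((Ψ.map (algebraMap k[X] (RatFunc k))).map (algebraMap (RatFunc k) Fc)).Splits :=
    hspl.of_dvd (map_ne_zero hcarK0) ((map_dvd_map' _).mpr hdvd)
  have hdegΨ : ((Ψ.map (algebraMap k[X] (RatFunc k))).map
      (algebraMap (RatFunc k) Fc)).degree ≠ 0 := by
    rw [degree_map, (hΨm.degree_map _), degree_eq_natDegree hΨm.ne_zero]
    exact_mod_cast hΨ0.ne'
  obtain ⟨y, hy⟩ := hsplΨ.exists_eval_eq_zero hdegΨ
  have hyΨ : aeval y Ψ = 0 := by
    rw [← haev, aeval_def, ← eval_map]; exact hy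
  have hΨ_ne : ∀ z : Fc, aeval z Ψ = 0 → z ≠ 0 := by
    rintro z hz rfl
    rw [← coeff_zero_eq_aeval_zero', hΨc] at hz
    exact hPF hz
  have hy0 : y ≠ 0 := hΨ_ne y hyΨ
  have hcar_aev : ∀ z : Fc, aeval z (car P) = z * aeval z Ψ := by
    intro z
    rw [hcar, map_mul, aeval_X]
  have hycar : aeval y (car P) = 0 := by rw [hcar_aev, hyΨ, mul_zero]
  obtain ⟨hadd, hsmul, hmulX, hzero, hroots, hcomp⟩ :=
    hA k P Fc y hPm hPi hinj hy0 hycar
  have hlam1 : aeval y (car (1 : k[X])) = y := by rw [car_one', aeval_X]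
  -- minimal polynomials
  have hmin : ∀ z : Fc, aeval z Ψ = 0 →
      minpoly (RatFunc k) z = Ψ.map (algebraMap k[X] (RatFunc k)) := by
    intro z hz
    symm
    apply minpoly.eq_of_irreducible_of_monic hΨiK _ (hΨm.map _)
    rw [haev, hz]
  have hΨlam : ∀ a : k[X], ¬ P ∣ a → aeval (aeval y (car a)) Ψ = 0 := by
    intro a ha
    have h1 : aeval y (car a) ≠ 0 := fun h => ha ((hzero a).1 h)
    have h2 : aeval (aeval y (car a)) (car P) = 0 := (hroots _).2 ⟨a, rfl⟩
    rw [hcar_aev] at h2
    exact (mul_eq_zero.1 h2).resolve_left h1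
  -- generation
  have htop : Algebra.adjoin (RatFunc k) {y} = ⊤ := by
    rw [eq_top_iff, ← IsSplittingField.adjoin_rootSet Fc
      ((car P).map (algebraMap k[X] (RatFunc k))), Algebra.adjoin_le_iff]
    intro z hz
    have h1 : aeval z ((car P).map (algebraMap k[X] (RatFunc k))) = 0 := (mem_rootSet'.1 hz).2
    rw [haev] at h1
    obtain ⟨a, ha⟩ := (hroots z).1 h1
    rw [ha, ← haev]
    exact Algebra.adjoin_singleton_eq_range_aeval (RatFunc k) y ▸ ⟨_, rfl⟩
  have hgen : ∀ z : Fc, ∃ (b : k[X]) (f : (k[X])[X]), b ≠ 0 ∧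
      algebraMap k[X] Fc b * z = aeval y f := by
    intro z
    have hz : z ∈ Algebra.adjoin (RatFunc k) {y} := by rw [htop]; trivial
    rw [Algebra.adjoin_singleton_eq_range_aeval] at hz
    obtain ⟨g, hg⟩ := hz
    obtain ⟨b, hb, hbg⟩ := IsLocalization.integerNormalization_spec (k[X])⁰ g
    refine ⟨b, IsLocalization.integerNormalization (k[X])⁰ g, nonZeroDivisors.ne_zero hb, ?_⟩
    rw [← haev, hbg]
    have h1 : aeval y (b • g) = b • aeval y g := by
      rw [← algebraMap_smul (RatFunc k) b g, map_smul, algebraMap_smul]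
    rw [h1, Algebra.smul_def]
    congr 1
    exact hg.symm
  have huniq : ∀ σ τ : Fc ≃ₐ[k[X]] Fc, σ y = τ y → σ = τ := by
    intro σ τ h
    apply AlgEquiv.ext
    intro z
    obtain ⟨b, f, hb, hbf⟩ := hgen z
    have h1 := congrArg σ hbf
    have h2 := congrArg τ hbf
    rw [map_mul, AlgEquiv.commutes, ← aeval_algHom_apply] at h1
    rw [map_mul, AlgEquiv.commutes, ← aeval_algHom_apply] at h2
    rw [h, ← h2] at h1
    exact mul_left_cancel₀ (by rw [Ne, map_eq_zero_iff _ hinj]; exact hb) h1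
  have hex : ∀ a : k[X], ∃ σ : Fc ≃ₐ[k[X]] Fc, ¬ P ∣ a → σ y = aeval y (car a) := by
    intro a
    by_cases ha : P ∣ a
    · exact ⟨AlgEquiv.refl, fun h => absurd ha h⟩
    · have h1 : minpoly (RatFunc k) (aeval y (car a)) = minpoly (RatFunc k) y := by
        rw [hmin _ (hΨlam a ha), hmin y hyΨ]
      rw [Normal.minpoly_eq_iff_mem_orbit] at h1
      obtain ⟨σ, hσ⟩ := h1
      exact ⟨σ.restrictScalars k[X], fun _ => hσ⟩
  choose sg hsg using hex
  have hsgl : ∀ a b : k[X], ¬ P ∣ a → sg a (aeval y (car b)) = aeval y (car (a * b)) := by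
    intro a b ha
    rw [← aeval_algHom_apply, hsg a ha, mul_comm a b, hcomp]
  refine ⟨⟨{
    lam := fun a => aeval y (car a)
    add := hadd
    smul := hsmul
    mulX := hmulX
    zero_iff := hzero
    roots := hroots
    inj := hinj
    gen := ?_
    sg := sg
    sg_lam := hsgl
    sg_mod := ?_
    sg_mul := ?_
    sg_surj := ?_
    fixed := ?_ }⟩, hfd, hsepF, ?_, ?_, ?_⟩
  · rw [hlam1]; exact hgen
  · intro a b ha hab
    have hb : ¬ P ∣ b := fun hb => ha (by
      have := dvd_add hab hb
      rwa [sub_add_cancel] at this)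
    apply huniq
    rw [hsg a ha, hsg b hb]
    have h1 := hadd (a - b) b
    rw [sub_add_cancel, (hzero _).2 hab, zero_add] at h1
    exact h1
  · intro a b ha hb
    have hab : ¬ P ∣ a * b := fun h => (hPi.prime.dvd_or_dvd h).elim ha hb
    apply huniq
    rw [hsg _ hab, AlgEquiv.trans_apply, hsg a ha, hsgl b a hb, mul_comm]
  · intro σ
    have h1 : aeval (σ y) (car P) = 0 := by
      rw [← map_zero σ, ← hycar]
      exact aeval_algHom_apply _ _ _
    obtain ⟨a, ha⟩ := (hroots _).1 h1
    have h2 : ¬ P ∣ a := by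
      intro h
      rw [(hzero a).2 h] at ha
      exact hy0 ((map_eq_zero_iff σ σ.injective).1 ha)
    refine ⟨a, h2, huniq _ _ ?_⟩
    rw [ha, hsg a h2]
  · intro z hz
    have h1 : z ∈ (⊥ : IntermediateField (RatFunc k) Fc) := by
      rw [IsGalois.mem_bot_iff_fixed]
      intro τ
      have h1 : aeval (τ y) (car P) = 0 := by
        have h2 := aeval_algHom_apply (τ.restrictScalars k[X] : Fc ≃ₐ[k[X]] Fc) y (car P)
        rw [hycar, map_zero] at h2
        exact h2
      obtain ⟨a, ha⟩ := (hroots _).1 h1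
      have h2 : ¬ P ∣ a := by
        intro h
        rw [(hzero a).2 h] at ha
        exact hy0 ((map_eq_zero_iff τ τ.injective).1 ha)
      have h3 : (τ.restrictScalars k[X] : Fc ≃ₐ[k[X]] Fc) = sg a := by
        apply huniq
        rw [hsg a h2]
        exact ha
      have h4 := hz a h2
      rw [← h3] at h4
      exact h4
    obtain ⟨r, hr⟩ := IntermediateField.mem_bot.1 h1
    refine ⟨r.num, r.denom, r.denom_ne_zero, ?_⟩
    rw [← hr, IsScalarTower.algebraMap_apply k[X] (RatFunc k) Fc,
      IsScalarTower.algebraMap_apply k[X] (RatFunc k) Fc r.num, ← map_mul]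
    congr 1
    have h5 : algebraMap k[X] (RatFunc k) r.denom ≠ 0 := by
      rw [Ne, map_eq_zero_iff _ (IsFractionRing.injective k[X] (RatFunc k))]
      exact r.denom_ne_zero
    rw [← eq_div_iff h5]
    exact (RatFunc.num_div_denom r).symm
  · have h1 : IntermediateField.adjoin (RatFunc k) {y} = ⊤ := by
      apply IntermediateField.toSubalgebra_injective
      rw [IntermediateField.top_toSubalgebra, ← htop]
      exact IntermediateField.adjoin_simple_toSubalgebra_of_isAlgebraic
        (Algebra.IsAlgebraic.isAlgebraic y)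
    have h2 := IntermediateField.adjoin.finrank (K := RatFunc k) (x := y)
      (Algebra.IsIntegral.isIntegral y)
    rw [h1, IntermediateField.finrank_top', hmin y hyΨ, hΨm.natDegree_map, hΨd] at h2
    exact h2
  · exact integralClosure.isDedekindDomain k[X] (RatFunc k) Fc
  · exact integralClosure.isFractionRing_of_finite_extension (RatFunc k) Fc

end Pool.Agent.W140.GK
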